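import Pool.Agent.ANO5.A1.Defs

/-!
# ANO5, module B: coordinates (package IDX-CRD)

`toE : X r → E r` is an open embedding onto `dom r` with the inverse `ofE`.

* `isOpen_dom`, `convex_dom`: `dom r` is a finite intersection of open half spaces.
* `box p R`: the product of hyperbolic balls and a ball of `V`: compact, convex in the coordinates,
  and every compact set is contained in a box.
* `mix t a b`: moves from `a` to `b`: on straight lines in the coordinates of `ℍ`, on the geodesic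
  in `W`.
-/

set_option autoImplicit false
set_option linter.unusedSectionVars false

open Set Filter Topology
open scoped UpperHalfPlane MatrixGroups

namespace Pool.Agent.ANO5.A1.Idx

variable [Fib]

variable {r : ℕ}

theorem toE_mem (p : X r) : toE p ∈ dom r := by
  exact fun i => (p.1 i).im_pos

theorem ofE_toE (p : X r) : ofE (toE p) = p := by
  exact Prod.ext (funext fun i => UpperHalfPlane.ofComplex_apply (p.1 i))
    (Fib.crd.symm_apply_apply p.2)

theorem toE_ofE {x : E r} (hx : x ∈ dom r) : toE (ofE x) = x := by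
  refine Prod.ext (funext fun i => ?_) (Fib.crd.apply_symm_apply x.2)
  change ((UpperHalfPlane.ofComplex (x.1 i) : ℍ) : ℂ) = x.1 i
  rw [UpperHalfPlane.ofComplex_apply_of_im_pos (hx i)]

theorem toE_injective : Function.Injective (toE : X r → E r) := by
  exact Function.LeftInverse.injective (g := ofE) ofE_toE

theorem range_toE : Set.range (toE : X r → E r) = dom r := by
  ext x
  constructor
  · rintro ⟨p, rfl⟩
    exact toE_mem p
  · intro hx
    exact ⟨ofE x, toE_ofE hx⟩

private theorem openEmb_Crd : IsOpenEmbedding (toE : X r → E r) := by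
  have h : IsOpenEmbedding (Prod.map (Pi.map fun _ : Fin r => ((↑) : ℍ → ℂ))
      (Fib.crd : Fib.W → Fib.V)) :=
    (IsOpenEmbedding.piMap fun _ => UpperHalfPlane.isOpenEmbedding_coe).prodMap
      Fib.crd.isOpenEmbedding
  exact h

theorem continuous_toE : Continuous (toE : X r → E r) := by
  exact openEmb_Crd.continuous

theorem isOpenEmbedding_toE : IsOpenEmbedding (toE : X r → E r) := by
  exact openEmb_Crd

theorem continuousOn_ofE : ContinuousOn (ofE : E r → X r) (dom r) := by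
  intro x hx
  apply ContinuousAt.continuousWithinAt
  rw [← toE_ofE hx, ← openEmb_Crd.continuousAt_iff]
  have h : (ofE : E r → X r) ∘ toE = id := funext ofE_toE
  rw [h]
  exact continuousAt_id

theorem isOpen_dom : IsOpen (dom r) := by
  rw [← range_toE]
  exact openEmb_Crd.isOpen_range

theorem convex_dom : Convex ℝ (dom r) := by
  intro x hx y hy a b ha hb hab i
  exact (convex_halfSpace_im_gt 0) (hx i) (hy i) ha hb hab

/-- A product of balls. -/
def box (p : X r) (R : ℝ) : Set (X r) :=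
  {q | (∀ i, dist (q.1 i) (p.1 i) ≤ R) ∧ ‖Fib.crd q.2 - Fib.crd p.2‖ ≤ R}

theorem mem_box {p q : X r} {R : ℝ} :
    q ∈ box p R ↔ (∀ i, dist (q.1 i) (p.1 i) ≤ R) ∧ ‖Fib.crd q.2 - Fib.crd p.2‖ ≤ R := Iff.rfl

theorem mem_box_self (p : X r) {R : ℝ} (hR : 0 ≤ R) : p ∈ box p R := by
  refine ⟨fun i => ?_, ?_⟩
  · rw [dist_self]
    exact hR
  · rw [sub_self, norm_zero]
    exact hR

theorem compact_box (p : X r) (R : ℝ) : IsCompact (box p R) := by
  have h1 : IsCompact (Set.univ.pi fun i => Metric.closedBall (p.1 i) R) :=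
    isCompact_univ_pi fun i => isCompact_closedBall _ _
  have h2 : IsCompact (Fib.crd ⁻¹' Metric.closedBall (Fib.crd p.2) R) :=
    Fib.crd.isClosedEmbedding.isCompact_preimage (isCompact_closedBall _ _)
  convert h1.prod h2 using 1
  ext q
  simp only [mem_box, Set.mem_prod, Set.mem_univ_pi, Metric.mem_closedBall, Set.mem_preimage,
    dist_eq_norm]

theorem subset_box (p : X r) {K : Set (X r)} (hK : IsCompact K) : ∃ R, K ⊆ box p R := by
  obtain ⟨R₁, h1⟩ := hK.isBounded.subset_closedBall p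
  have hc : Continuous fun q : X r => ‖Fib.crd q.2 - Fib.crd p.2‖ :=
    ((Fib.crd.continuous.comp continuous_snd).sub continuous_const).norm
  obtain ⟨R₂, h2⟩ := hK.exists_bound_of_continuousOn hc.continuousOn
  refine ⟨max R₁ R₂, fun q hq => ⟨fun i => ?_, ?_⟩⟩
  · have h3 := h1 hq
    rw [Metric.mem_closedBall, Prod.dist_eq] at h3
    exact ((dist_le_pi_dist q.1 p.1 i).trans ((le_max_left _ _).trans h3)).trans
      (le_max_left _ _)
  · have h3 := h2 q hq
    rw [norm_norm] at h3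
    exact h3.trans (le_max_right _ _)

theorem box_mono (p : X r) {R R' : ℝ} (h : R ≤ R') : box p R ⊆ box p R' :=
  fun _ hq => ⟨fun i => (hq.1 i).trans h, hq.2.trans h⟩

theorem compact_image_box (p : X r) (R : ℝ) : IsCompact (toE '' box p R) :=
  (compact_box p R).image continuous_toE

theorem convex_image_box (p : X r) (R : ℝ) : Convex ℝ (toE '' box p R) := by
  have h : toE '' box p R = {x : E r |
      (∀ i, x.1 i ∈ ((↑) : ℍ → ℂ) '' Metric.closedBall (p.1 i) R) ∧
        x.2 ∈ Metric.closedBall (Fib.crd p.2) R} := by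
    ext x
    constructor
    · rintro ⟨q, hq, rfl⟩
      refine ⟨fun i => ⟨q.1 i, hq.1 i, rfl⟩, ?_⟩
      rw [mem_closedBall_iff_norm]
      exact hq.2
    · rintro ⟨h1, h2⟩
      choose q hq hqx using h1
      refine ⟨(q, Fib.crd.symm x.2), ⟨fun i => hq i, ?_⟩, Prod.ext (funext hqx) ?_⟩
      · rw [Homeomorph.apply_symm_apply]
        exact mem_closedBall_iff_norm.1 h2
      · exact Fib.crd.apply_symm_apply x.2
  rw [h]
  intro x hx y hy a b ha hb hab
  refine ⟨fun i => ?_, ?_⟩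
  · have hc : Convex ℝ (((↑) : ℍ → ℂ) '' Metric.closedBall (p.1 i) R) := by
      rw [UpperHalfPlane.image_coe_closedBall]
      exact convex_closedBall _ _
    exact hc (hx.1 i) (hy.1 i) ha hb hab
  · exact (convex_closedBall (Fib.crd p.2) R) hx.2 hy.2 ha hb hab

theorem image_box_subset (p : X r) (R : ℝ) : toE '' box p R ⊆ dom r := by
  rintro _ ⟨q, -, rfl⟩
  exact toE_mem q

/-- Move from `a` (`t = 0`) to `b` (`t = 1`). -/
noncomputable def mix (t : ℝ) (a b : X r) : X r :=
  (fun i => UpperHalfPlane.ofComplex ((1 - t) * (a.1 i : ℂ) + t * (b.1 i : ℂ)),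
    Fib.geo t a.2 b.2)

/-- The set where `mix` is smooth, in the coordinates. -/
def mixDom (r : ℕ) : Set (ℝ × E r × E r) :=
  {q | (∀ i, 0 < ((1 - q.1) * q.2.1.1 i + q.1 * q.2.2.1 i : ℂ).im) ∧ q.2.1 ∈ dom r ∧
    q.2.2 ∈ dom r}

theorem mix_zero (a b : X r) : mix 0 a b = a := by
  refine Prod.ext (funext fun i => ?_) (Fib.geo_zero _ _)
  change UpperHalfPlane.ofComplex ((1 - ((0 : ℝ) : ℂ)) * (a.1 i : ℂ) + ((0 : ℝ) : ℂ) * (b.1 i : ℂ)) =
    a.1 i
  rw [Complex.ofReal_zero, sub_zero, one_mul, zero_mul, add_zero, UpperHalfPlane.ofComplex_apply]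

theorem mix_one (a b : X r) : mix 1 a b = b := by
  refine Prod.ext (funext fun i => ?_) (Fib.geo_one _ _)
  change UpperHalfPlane.ofComplex ((1 - ((1 : ℝ) : ℂ)) * (a.1 i : ℂ) + ((1 : ℝ) : ℂ) * (b.1 i : ℂ)) =
    b.1 i
  rw [Complex.ofReal_one, sub_self, one_mul, zero_mul, zero_add, UpperHalfPlane.ofComplex_apply]

private theorem im_pos_Crd {z w : ℍ} {t : ℝ} (ht : t ∈ Icc (0 : ℝ) 1) :
    0 < ((1 - t) * (z : ℂ) + t * (w : ℂ) : ℂ).im := by
  have h1 := z.im_pos
  have h2 := w.im_pos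
  have h3 : ((1 - t) * (z : ℂ) + t * (w : ℂ) : ℂ).im = (1 - t) * z.im + t * w.im := by
    simp
  rw [h3]
  rcases eq_or_lt_of_le ht.1 with h | h
  · rw [← h]
    linarith
  · have h4 : 0 ≤ (1 - t) * z.im := mul_nonneg (by linarith [ht.2]) h1.le
    have h5 : 0 < t * w.im := mul_pos h h2
    linarith

theorem mem_mixDom {t : ℝ} (ht : t ∈ Icc (0 : ℝ) 1) (a b : X r) :
    (t, toE a, toE b) ∈ mixDom r :=
  ⟨fun _ => im_pos_Crd ht, toE_mem a, toE_mem b⟩

theorem isOpen_mixDom : IsOpen (mixDom r) := by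
  have h1 : IsOpen {q : ℝ × E r × E r |
      ∀ i, 0 < ((1 - q.1) * q.2.1.1 i + q.1 * q.2.2.1 i : ℂ).im} := by
    rw [Set.ofPred_forall]
    refine isOpen_iInter_of_finite fun i => isOpen_lt continuous_const ?_
    fun_prop
  exact h1.inter ((isOpen_dom.preimage (continuous_fst.comp continuous_snd)).inter
    (isOpen_dom.preimage (continuous_snd.comp continuous_snd)))

/-- the formula for `mix` in the coordinates -/
theorem toE_mix {t : ℝ} (a b : X r)
    (h : ∀ i, 0 < ((1 - t) * (a.1 i : ℂ) + t * (b.1 i : ℂ) : ℂ).im) :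
    toE (mix t a b) = (fun i => (1 - t) * (a.1 i : ℂ) + t * (b.1 i : ℂ),
      Fib.crd (Fib.geo t a.2 b.2)) := by
  refine Prod.ext (funext fun i => ?_) rfl
  exact congrArg UpperHalfPlane.coe (UpperHalfPlane.ofComplex_apply_of_im_pos (h i))

theorem smooth_mix : ContDiffOn ℝ 1 (fun q : ℝ × E r × E r =>
    toE (mix q.1 (ofE q.2.1) (ofE q.2.2))) (mixDom r) := by
  have h1 : ContDiff ℝ 1 fun q : ℝ × E r × E r =>
      ((fun i => (1 - (q.1 : ℂ)) * q.2.1.1 i + (q.1 : ℂ) * q.2.2.1 i : Fin r → ℂ),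
        Fib.crd (Fib.geo q.1 (Fib.crd.symm q.2.1.2) (Fib.crd.symm q.2.2.2))) := by
    refine ContDiff.prodMk (contDiff_pi.2 fun i => ?_) ?_
    · have h0 : ContDiff ℝ 1 fun q : ℝ × E r × E r => (q.1 : ℂ) :=
        Complex.ofRealCLM.contDiff.comp contDiff_fst
      have ha : ContDiff ℝ 1 fun q : ℝ × E r × E r => q.2.1.1 i :=
        (contDiff_apply ℝ ℂ i).comp
          (contDiff_fst.comp (contDiff_fst.comp contDiff_snd))
      have hb : ContDiff ℝ 1 fun q : ℝ × E r × E r => q.2.2.1 i :=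
        (contDiff_apply ℝ ℂ i).comp
          (contDiff_fst.comp (contDiff_snd.comp contDiff_snd))
      exact ((contDiff_const.sub h0).mul ha).add (h0.mul hb)
    · exact Fib.geo_smooth.comp (contDiff_fst.prodMk
        ((contDiff_snd.comp (contDiff_fst.comp contDiff_snd)).prodMk
          (contDiff_snd.comp (contDiff_snd.comp contDiff_snd))))
  refine h1.contDiffOn.congr fun q hq => ?_
  obtain ⟨ha, hb⟩ := hq.2
  have ea : ∀ i, (((ofE q.2.1 : X r).1 i : ℍ) : ℂ) = q.2.1.1 i := fun i =>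
    congrArg (fun x : E r => x.1 i) (toE_ofE ha)
  have eb : ∀ i, (((ofE q.2.2 : X r).1 i : ℍ) : ℂ) = q.2.2.1 i := fun i =>
    congrArg (fun x : E r => x.1 i) (toE_ofE hb)
  rw [toE_mix]
  · simp only [ea, eb]
    rfl
  · intro i
    rw [ea, eb]
    exact hq.1 i

theorem continuous_mix : ContinuousOn (fun q : ℝ × X r × X r => mix q.1 q.2.1 q.2.2)
    {q | q.1 ∈ Icc (0 : ℝ) 1} := by
  have h1 : ContinuousOn (fun q : ℝ × X r × X r =>
      toE (mix q.1 (ofE (toE q.2.1)) (ofE (toE q.2.2)))) {q | q.1 ∈ Icc (0 : ℝ) 1} := by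
    refine smooth_mix.continuousOn.comp (f := fun q : ℝ × X r × X r =>
      (q.1, toE q.2.1, toE q.2.2)) ?_ fun q hq => mem_mixDom hq _ _
    exact (continuous_fst.prodMk ((continuous_toE.comp (continuous_fst.comp
      continuous_snd)).prodMk (continuous_toE.comp (continuous_snd.comp
        continuous_snd)))).continuousOn
  simp only [ofE_toE] at h1
  have h2 := continuousOn_ofE.comp h1 fun q _ => toE_mem _
  refine h2.congr fun q _ => ?_
  exact (ofE_toE _).symm

theorem mix_dist (a b : X r) {t : ℝ} (ht : t ∈ Icc (0 : ℝ) 1) :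
    dist (mix t a b) b ≤ dist a b := by
  rw [Prod.dist_eq, Prod.dist_eq]
  refine max_le_max ?_ (Fib.geo_dist _ _ _ ht)
  refine (dist_pi_le_iff dist_nonneg).2 fun i => ?_
  refine le_trans ?_ (dist_le_pi_dist a.1 b.1 i)
  have hc : Convex ℝ (((↑) : ℍ → ℂ) '' Metric.closedBall (b.1 i) (dist (a.1 i) (b.1 i))) := by
    rw [UpperHalfPlane.image_coe_closedBall]
    exact convex_closedBall _ _
  have h1 : (a.1 i : ℂ) ∈ ((↑) : ℍ → ℂ) '' Metric.closedBall (b.1 i) (dist (a.1 i) (b.1 i)) :=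
    ⟨a.1 i, Metric.mem_closedBall.2 le_rfl, rfl⟩
  have h2 : (b.1 i : ℂ) ∈ ((↑) : ℍ → ℂ) '' Metric.closedBall (b.1 i) (dist (a.1 i) (b.1 i)) :=
    ⟨b.1 i, Metric.mem_closedBall_self dist_nonneg, rfl⟩
  obtain ⟨w, hw, h3⟩ := hc h1 h2 (by linarith [ht.2] : (0 : ℝ) ≤ 1 - t) ht.1 (by ring)
  have h4 : (mix t a b).1 i = w := by
    change UpperHalfPlane.ofComplex ((1 - t) * (a.1 i : ℂ) + t * (b.1 i : ℂ)) = w
    have h5 : ((1 - t) * (a.1 i : ℂ) + t * (b.1 i : ℂ) : ℂ) = (w : ℂ) := by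
      rw [h3]
      simp [Complex.real_smul]
    rw [h5, UpperHalfPlane.ofComplex_apply]
  rw [h4]
  exact hw

end Pool.Agent.ANO5.A1.Idx
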